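import Mathlib
import Pool.Agent.Y694.T6.Main
import Pool.Agent.Y694.T6.Ball
import Pool.Agent.Y694.T6.Loc
import Pool.Agent.Y694.T6.Tst
import Pool.Agent.Y694.T6.Peel
import Pool.Agent.Y694.T6.Chn
import Pool.Agent.Y38.T6.Asc
import Pool.Agent.Y38.T6.Law
import Pool.Agent.Y38.T6.Self
import Pool.Agent.Y38.T6.Feq
import Pool.Agent.Y38.T6.Ode
import Pool.Agent.Y811.T6.Emb
import Pool.Agent.Y811.T6.Num
import Pool.Agent.Y811.T6.TreeEx
import Pool.Agent.Y38.T6.Walk
import Pool.Agent.Y38.T6.Meas
import Pool.Agent.Y38.T6.Teps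
import Pool.Agent.Y761.T6.Asy
import Pool.Agent.Y761.T6.Rec

/-!
# 5-colouring the 6-regular tree by a uniform local algorithm of complexity o(log 1/eps)
-/

set_option autoImplicit false

open MeasureTheory Filter Topology
open scoped ENNReal

universe u

namespace Pool.Agent.Results.MP_e8140e_co.FastFiveColouring

/-- I.i.d. labels, uniform on `[0,1]`, one for each vertex. -/
noncomputable def labels (V : Type*) : Measure (V → unitInterval) :=
  Measure.infinitePi fun _ : V => (volume : Measure unitInterval)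

/-- `φ` restricts to a rooted isomorphism from the labelled ball `B(v,r)` with labels `ω` onto the
labelled ball `B(v',r)` with labels `ω'` (balls are induced subgraphs, rooted at their centres). -/
def IsBallIso {V : Type*} (G : SimpleGraph V) (r : ℕ) (ω ω' : V → unitInterval) (v v' : V)
    (φ : V → V) : Prop :=
  φ v = v' ∧ Set.BijOn φ {u | G.dist v u ≤ r} {u | G.dist v' u ≤ r} ∧
    (∀ a b, G.dist v a ≤ r → G.dist v b ≤ r → (G.Adj a b ↔ G.Adj (φ a) (φ b))) ∧
    ∀ a, G.dist v a ≤ r → ω' (φ a) = ω a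

/-- A uniform local algorithm on `G` with `q` colours: the stopping radius of each vertex and the
colour it outputs. -/
structure UniformLocalAlgorithm {V : Type*} (G : SimpleGraph V) (q : ℕ) where
  /-- the stopping radius (coding radius) of a vertex, `⊤` if it never stops -/
  R : (V → unitInterval) → V → ℕ∞
  /-- the output colour -/
  c : (V → unitInterval) → V → Fin q
  /-- whether `v` stops at radius `r` and then outputs `i` is a measurable function of the labels of
  the ball `B(v,r)` -/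
  measurable : ∀ (v : V) (r : ℕ) (i : Fin q),
    ∃ E : Set ({u // G.dist v u ≤ r} → unitInterval), MeasurableSet E ∧
      ∀ ω : V → unitInterval, (R ω v = r ∧ c ω v = i) ↔ (fun u : {u // G.dist v u ≤ r} => ω u.1) ∈ E
  /-- the same rule at all vertices: whether a vertex stops at radius `r`, and its colour, only
  depend on its labelled ball of radius `r` up to rooted isomorphism -/
  isLocal : ∀ (r : ℕ) (ω ω' : V → unitInterval) (v v' : V) (φ : V → V),
    IsBallIso G r ω ω' v v' φ → R ω v = r → R ω' v' = r ∧ c ω' v' = c ω v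

open Pool.Agent.Y694.T6

/-- **A uniform local algorithm of complexity o(log 1/ε) for 5-colouring the 6-regular tree.**
There is a 6-regular tree, and on every 6-regular tree `G` there is a uniform local algorithm `A`
with 5 colours which stops almost surely at every vertex, whose output is almost surely a proper
5-colouring, and which has uniform complexity `t(ε) = o(log ε⁻¹)` as `ε → 0`:
`P(R(v) > t(ε)) ≤ ε` for every `ε > 0` and every vertex `v`. -/
theorem result :
    (∃ (V : Type) (G : SimpleGraph V), G.IsTree ∧ ∀ v, (G.neighborSet v).ncard = 6) ∧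
    ∀ (V : Type u) (G : SimpleGraph V), G.IsTree → (∀ v, (G.neighborSet v).ncard = 6) →
      ∃ A : UniformLocalAlgorithm G 5,
        (∀ᵐ ω ∂(labels V), ∀ v, A.R ω v ≠ ⊤) ∧
        (∀ᵐ ω ∂(labels V), ∀ u v, G.Adj u v → A.c ω u ≠ A.c ω v) ∧
        ∃ t : ℝ → ℕ,
          (∀ ε : ℝ, 0 < ε → ∀ v, labels V {ω | (t ε : ℕ∞) < A.R ω v} ≤ ENNReal.ofReal ε) ∧
          (fun ε : ℝ => (t ε : ℝ)) =o[𝓝[>] 0] fun ε : ℝ => Real.log ε⁻¹ := by
  refine ⟨Pool.Agent.Y811.T6.t_treeEx, ?_⟩
  intro V G hT hdeg'
  have hdeg : Deg6 G := hdeg'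
  have hc : G.Connected := hT.connected
  have hcount : Countable V := t_countable G hc hdeg
  have hne : Nonempty V := hc.nonempty
  -- the steps
  have hAsc : AscBound := Pool.Agent.Y38.T6.t_asc
  have hW : WalkBound G :=
    Pool.Agent.Y38.T6.t_walk hAsc (fun n => Pool.Agent.Y38.T6.t_law V (Fin n)) G hdeg
  have hS : StBound G := t_stBound G hW
  have hH : HsBsg G := t_hsBsg G hdeg
  have hE : EmbEx G := Pool.Agent.Y811.T6.t_emb G hT hdeg
  have hB : BsgLe G := t_bsgLe G hE (Pool.Agent.Y38.T6.t_law V (List (Fin 5)))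
  have hR : Resolved G := t_resolved G hc hdeg
  have hU : BallUnion G := t_ballUnion G hc hdeg
  have hC : Chain G := t_chain G hc hdeg
  have hN : NoTies V := t_noTies V
  have hSelf : SelfSim := Pool.Agent.Y38.T6.t_self
  have hAe : TstAe := Pool.Agent.Y761.T6.t_tstAe hSelf t_tstMeas
  have hF : FfEq := Pool.Agent.Y38.T6.t_ffEq hSelf t_tstIn t_tstExcl hAe t_tstMeas
  have hZ : ZzRec :=
    Pool.Agent.Y761.T6.t_zzRec hSelf t_tstOut hAe t_tstMeas t_tsMeas
  have hM : Meas G := Pool.Agent.Y38.T6.t_meas G hdeg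
  have hL : Loc G := t_loc G hc
  have hBM : BallMono G := t_ballMono G hc
  have htail := tail_superexp G hdeg hS hH hB hR hU hC hN hW hF Pool.Agent.Y38.T6.t_ode hZ
    Pool.Agent.Y811.T6.t_num Pool.Agent.Y761.T6.t_asy
  obtain ⟨t, ht1, ht2⟩ := Pool.Agent.Y38.T6.t_teps _ htail
  have hbdd : ∀ r : ℕ, BddAbove (Set.range fun v => (P V).real {ω | ¬ fin G r ω v}) := by
    intro r
    refine ⟨1, ?_⟩
    rintro _ ⟨v, rfl⟩
    exact measureReal_le_one
  -- the bound for each vertex
  have hv : ∀ (ε : ℝ), 0 < ε → ∀ v, P V {ω | ¬ fin G (t ε) ω v} ≤ ENNReal.ofReal ε := by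
    intro ε hε v
    have h1 := le_trans (le_ciSup (hbdd (t ε)) v) (ht1 ε hε)
    rw [← ofReal_measureReal (μ := P V) (s := {ω | ¬ fin G (t ε) ω v})]
    exact ENNReal.ofReal_le_ofReal h1
  -- almost sure termination
  have hterm : ∀ᵐ ω ∂(P V), ∀ v, ∃ r, fin G r ω v := by
    rw [ae_all_iff]
    intro v
    rw [ae_iff]
    refine le_antisymm ?_ (by simp)
    have h0 : Tendsto (fun ε : ℝ => ENNReal.ofReal ε) (𝓝[>] 0) (𝓝 (ENNReal.ofReal 0)) :=
      (ENNReal.continuous_ofReal.tendsto 0).mono_left nhdsWithin_le_nhds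
    rw [ENNReal.ofReal_zero] at h0
    refine ge_of_tendsto h0 ?_
    filter_upwards [self_mem_nhdsWithin] with ε hε
    refine le_trans (measure_mono ?_) (hv ε hε v)
    intro ω hω hf
    exact hω ⟨_, hf⟩
  -- properness
  have hprop : ∀ᵐ ω ∂(P V), ∀ u v, G.Adj u v → outc G ω u ≠ outc G ω v := by
    filter_upwards [hterm, hN] with ω h1 h2 u v huv
    obtain ⟨ru, hru⟩ : ∃ r : ℕ, Rad G ω u = r :=
      ⟨(Rad G ω u).toNat, by
        obtain ⟨r, hr⟩ := h1 u
        exact (ENat.natCast_toNat (rad_ne_top_of_fin G ω u r hr)).symm⟩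
    obtain ⟨rv, hrv⟩ : ∃ r : ℕ, Rad G ω v = r :=
      ⟨(Rad G ω v).toNat, by
        obtain ⟨r, hr⟩ := h1 v
        exact (ENat.natCast_toNat (rad_ne_top_of_fin G ω v r hr)).symm⟩
    rw [outc_of_rad G ω u ru hru, outc_of_rad G ω v rv hrv]
    have h3 := t_proper G hdeg ru rv ω u v huv (h2 u v huv.ne)
      ((rad_eq_iff G ω u ru).1 hru).1 ((rad_eq_iff G ω v rv).1 hrv).1
    have h4 := t_colLe G hdeg ru ω u
    have h5 := t_colLe G hdeg rv ω v
    intro h6
    apply h3
    have h7 := congrArg Fin.val h6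
    simp only [Fin.ofNat] at h7
    omega
  have hcv : Measurable (cv : (V → unitInterval) → V → ℝ) := measurable_cv
  have hmap : (labels V).map cv = P V := map_cv
  refine ⟨{ R := fun ω v => Rad G (cv ω) v
            c := fun ω v => outc G (cv ω) v
            measurable := ?_
            isLocal := ?_ }, ?_, ?_, t, ?_, ht2⟩
  · intro v r i
    classical
    have hms : MeasurableSet {ω : V → unitInterval | Rad G (cv ω) v = r ∧ outc G (cv ω) v = i} :=
      hcv (meas_rad G hM v r i)
    let extd : ({u // G.dist v u ≤ r} → unitInterval) → V → unitInterval :=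
      fun x u => if h : G.dist v u ≤ r then x ⟨u, h⟩ else 0
    have hext : Measurable extd := by
      refine measurable_pi_lambda _ fun u => ?_
      by_cases h : G.dist v u ≤ r
      · simp only [extd, h, dif_pos]
        exact measurable_pi_apply _
      · simp only [extd, h, dif_neg, not_false_eq_true]
        exact measurable_const
    refine ⟨extd ⁻¹' {ω | Rad G (cv ω) v = r ∧ outc G (cv ω) v = i}, hext hms, ?_⟩
    intro ω
    have hag : ∀ u, G.dist v u ≤ r →
        extd (fun u : {u // G.dist v u ≤ r} => ω u.1) u = ω u := by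
      intro u hu
      simp only [extd, hu, dif_pos]
    have hiso : ∀ ω1 ω2 : V → unitInterval, (∀ u, G.dist v u ≤ r → ω2 u = ω1 u) →
        Rad G (cv ω1) v = r → Rad G (cv ω2) v = r ∧ outc G (cv ω2) v = outc G (cv ω1) v := by
      intro ω1 ω2 h12 h3
      refine loc_rad G hL hBM r (cv ω1) (cv ω2) v v id ⟨rfl, Set.bijOn_id _, ?_, ?_⟩ h3
      · intro a b _ _
        exact Iff.rfl
      · intro a ha
        show ((ω2 (id a) : unitInterval) : ℝ) = ω1 a
        rw [id, h12 a ha]
    constructor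
    · rintro ⟨h1, h2⟩
      obtain ⟨h3, h4⟩ := hiso ω (extd (fun u : {u // G.dist v u ≤ r} => ω u.1)) hag h1
      exact ⟨h3, h4.trans h2⟩
    · rintro ⟨h1, h2⟩
      obtain ⟨h3, h4⟩ := hiso (extd (fun u : {u // G.dist v u ≤ r} => ω u.1)) ω
        (fun u hu => (hag u hu).symm) h1
      exact ⟨h3, h4.trans h2⟩
  · intro r ω ω' v v' φ h hr
    refine loc_rad G hL hBM r (cv ω) (cv ω') v v' φ ⟨h.1, h.2.1, h.2.2.1, ?_⟩ hr
    intro a ha
    show ((ω' (φ a) : unitInterval) : ℝ) = ω a
    rw [h.2.2.2 a ha]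
  · have h1 : ∀ᵐ ω ∂(labels V), ∀ v, ∃ r, fin G r (cv ω) v := by
      rw [← hmap] at hterm
      exact ae_of_ae_map hcv.aemeasurable hterm
    filter_upwards [h1] with ω hω v
    obtain ⟨r, hr⟩ := hω v
    exact rad_ne_top_of_fin G (cv ω) v r hr
  · rw [← hmap] at hprop
    exact ae_of_ae_map hcv.aemeasurable hprop
  · intro ε hε v
    refine le_trans (measure_mono ?_) (le_trans (Measure.le_map_apply hcv.aemeasurable
      {ω | ¬ fin G (t ε) ω v}) ?_)
    · intro ω hω
      exact lt_rad G (cv ω) v (t ε) hω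
    · rw [hmap]
      exact hv ε hε v

end Pool.Agent.Results.MP_e8140e_co.FastFiveColouring
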